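import Pool.Agent.Q163.RX.Crit

/-!
# From geometric scales to all scales; shifted thresholds
-/

set_option autoImplicit false

namespace Pool.Agent.Q163.RX

open Finset Filter Topology MeasureTheory ProbabilityTheory Pool.Agent.Q163.RP

/-- from geometric scales to all scales -/
theorem interp (F : ℕ → ℝ) (hF1 : ∀ n, |F n| ≤ 1)
    (hω : ∀ m : ℕ, Tendsto (fun j : ℕ =>
      (∑ n ∈ Icc 1 ⌊(1 + 1 / ((m : ℝ) + 1)) ^ j⌋₊, F n) /
        (⌊(1 + 1 / ((m : ℝ) + 1)) ^ j⌋₊ : ℝ)) atTop (𝓝 0)) :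
    Tendsto (fun N : ℕ => (∑ n ∈ Icc 1 N, F n) / N) atTop (𝓝 0) := by
  have hmono : Monotone fun N : ℕ => ∑ n ∈ Icc 1 N, (F n + 1) := by
    refine monotone_nat_of_le_succ fun N => ?_
    rw [Finset.sum_Icc_succ_top (by omega)]
    have := (abs_le.1 (hF1 (N + 1))).1
    linarith
  have hsplit : ∀ N : ℕ, ∑ n ∈ Icc 1 N, (F n + 1) = ∑ n ∈ Icc 1 N, F n + N := by
    intro N
    rw [Finset.sum_add_distrib, Finset.sum_const, Nat.card_Icc]
    simp
  have hfin := tendsto_div_of_monotone_of_tendsto_div_floor_pow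
    (fun N : ℕ => ∑ n ∈ Icc 1 N, (F n + 1)) 1 hmono (fun m : ℕ => 1 + 1 / ((m : ℝ) + 1))
    (fun m => by
      have : 0 < 1 / ((m : ℝ) + 1) := by positivity
      linarith)
    (by
      have := (tendsto_one_div_add_atTop_nhds_zero_nat (𝕜 := ℝ)).const_add 1
      simpa using this)
    (fun m => by
      have hc : (1 : ℝ) < 1 + 1 / ((m : ℝ) + 1) := by
        have : 0 < 1 / ((m : ℝ) + 1) := by positivity
        linarith
      have hcj : Tendsto (fun j : ℕ => ⌊(1 + 1 / ((m : ℝ) + 1)) ^ j⌋₊) atTop atTop :=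
        (tendsto_nat_floor_atTop (α := ℝ)).comp (tendsto_pow_atTop_atTop_of_one_lt hc)
      have h1 := (hω m).add_const 1
      rw [zero_add] at h1
      refine h1.congr' ?_
      filter_upwards [hcj.eventually_ge_atTop 1] with j hj
      have hNr : (0 : ℝ) < ⌊(1 + 1 / ((m : ℝ) + 1)) ^ j⌋₊ := by exact_mod_cast hj
      simp only [hsplit]
      rw [add_div, div_self hNr.ne'])
  have h1 := hfin.sub_const 1
  rw [sub_self] at h1
  refine h1.congr' ?_
  filter_upwards [eventually_ge_atTop 1] with N hN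
  have hNr : (0 : ℝ) < N := by exact_mod_cast hN
  rw [hsplit, add_div, div_self hNr.ne', add_sub_cancel_right]

/-- the mass above a power of the threshold -/
theorem mass_shift (P : Set ℕ) : ∃ C : ℝ, ∀ (u v : ℕ → ℕ) (N : ℕ), 3 ≤ u N → v N ≤ u N ^ 2 →
    mass P u N ≤ mass P v N + C := by
  classical
  obtain ⟨C, hC, h⟩ := mert_diff
  refine ⟨Real.log (2 : ℕ) + C, fun u v N hu hv => ?_⟩
  have h1 := h (u N) 2 hu (by norm_num)
  have hsub : (Ioc (u N) N).filter (fun p => p.Prime ∧ p ∈ P) ⊆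
      (Ioc (v N) N).filter (fun p => p.Prime ∧ p ∈ P) ∪
        ((Icc 1 (u N ^ 2)).filter Nat.Prime).filter (fun p => u N < p) := by
    intro p hp
    obtain ⟨h3, h4, h5⟩ := Finset.mem_filter.1 hp
    rw [Finset.mem_Ioc] at h3
    by_cases h6 : v N < p
    · exact Finset.mem_union_left _ (Finset.mem_filter.2 ⟨Finset.mem_Ioc.2 ⟨h6, h3.2⟩, h4, h5⟩)
    · exact Finset.mem_union_right _ (Finset.mem_filter.2 ⟨Finset.mem_filter.2
        ⟨Finset.mem_Icc.2 ⟨h4.one_lt.le, by omega⟩, h4⟩, h3.1⟩)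
  have hnn : ∀ p : ℕ, (0 : ℝ) ≤ (1 : ℝ) / p := fun p => by positivity
  have e1 := Finset.sum_le_sum_of_subset_of_nonneg (f := fun p : ℕ => (1 : ℝ) / p) hsub
    (fun p _ _ => hnn p)
  have e2 := Finset.sum_union_inter (s₁ := (Ioc (v N) N).filter (fun p => p.Prime ∧ p ∈ P))
    (s₂ := ((Icc 1 (u N ^ 2)).filter Nat.Prime).filter (fun p => u N < p))
    (f := fun p : ℕ => (1 : ℝ) / p)
  have e3 : 0 ≤ ∑ p ∈ (Ioc (v N) N).filter (fun p => p.Prime ∧ p ∈ P) ∩
      ((Icc 1 (u N ^ 2)).filter Nat.Prime).filter (fun p => u N < p), (1 : ℝ) / p :=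
    Finset.sum_nonneg fun p _ => hnn p
  have m1 : mass P u N = ∑ p ∈ (Ioc (u N) N).filter (fun p => p.Prime ∧ p ∈ P), (1 : ℝ) / p := by
    unfold mass
    congr
  have m2 : mass P v N = ∑ p ∈ (Ioc (v N) N).filter (fun p => p.Prime ∧ p ∈ P), (1 : ℝ) / p := by
    unfold mass
    congr
  rw [m1, m2]
  linarith

/-- Mertens' upper bound for the block -/
theorem blk_le (P : Set ℕ) : ∃ C : ℝ, ∀ (u : ℕ → ℕ) (N : ℕ), 3 ≤ N →
    ∑ p ∈ blk P u N, (1 : ℝ) / p ≤ Real.log (Real.log N) + C := by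
  classical
  obtain ⟨C, hC⟩ := Pool.Agent.Erdos456.Mert.mertens_inv
  refine ⟨C, fun u N hN => ?_⟩
  have h1 := (abs_le.1 (hC N hN)).2
  have h2 : ∑ p ∈ blk P u N, (1 : ℝ) / p ≤ ∑ p ∈ (Icc 1 N).filter Nat.Prime, (1 : ℝ) / p := by
    refine Finset.sum_le_sum_of_subset_of_nonneg ?_ fun p _ _ => by positivity
    intro p hp
    unfold blk at hp
    obtain ⟨h3, h4, _⟩ := Finset.mem_filter.1 hp
    have h5 := (Finset.mem_Ioc.1 h3).2
    refine Finset.mem_filter.2 ⟨Finset.mem_Icc.2 ⟨h4.one_lt.le, h5.trans ?_⟩, h4⟩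
    exact (Nat.le_self_pow (by norm_num) _).trans (rt_pow N)
  linarith

end Pool.Agent.Q163.RX
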