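import Pool.Agent.Q163.RX.Interp

/-!
# Almost sure convergence at the exact threshold
-/

set_option autoImplicit false

namespace Pool.Agent.Q163.RX

open Finset Filter Topology MeasureTheory ProbabilityTheory Pool.Agent.Q163.RP

/-- the threshold `log log N` -/
noncomputable def ll (N : ℕ) : ℕ := ⌊Real.log (Real.log N)⌋₊

/-- a multiple of the threshold -/
noncomputable def llD (D : ℝ) (N : ℕ) : ℕ := ⌈D * Real.log (Real.log N)⌉₊

theorem mass_llD (P : Set ℕ) (hP : Tendsto (mass P ll) atTop atTop) (D : ℝ) (hD : 1 ≤ D) :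
    Tendsto (mass P (llD D)) atTop atTop := by
  obtain ⟨C, hC⟩ := mass_shift P
  have hlog : Tendsto (fun N : ℕ => Real.log (Real.log (N : ℝ))) atTop atTop :=
    Real.tendsto_log_atTop.comp (Real.tendsto_log_atTop.comp tendsto_natCast_atTop_atTop)
  have h1 : Tendsto (fun N => mass P ll N + -C) atTop atTop := tendsto_atTop_add_const_right _ _ hP
  refine tendsto_atTop_mono' _ ?_ h1
  filter_upwards [hlog.eventually_ge_atTop (D + 5)] with N h2
  set x := Real.log (Real.log (N : ℝ)) with hx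
  have hf1 : (ll N : ℝ) ≤ x := Nat.floor_le (by linarith)
  have hf2 : x < (ll N : ℝ) + 1 := Nat.lt_floor_add_one x
  have h3 : 3 ≤ ll N := by
    have : (4 : ℝ) < ll N := by linarith
    have h4 : 4 < ll N := by exact_mod_cast this
    omega
  have hc : ((llD D N : ℕ) : ℝ) < D * x + 1 := Nat.ceil_lt_add_one (by
    have : 0 ≤ x := by linarith
    positivity)
  have h4 : llD D N ≤ ll N ^ 2 := by
    have h5 : ((llD D N : ℕ) : ℝ) < ((ll N ^ 2 : ℕ) : ℝ) + 1 := by
      push_cast
      have h6 : D + 4 ≤ ll N := by linarith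
      have h7 : (4 : ℝ) ≤ ll N := by linarith
      nlinarith
    have h6 : llD D N < ll N ^ 2 + 1 := by exact_mod_cast h5
    omega
  have := hC ll (llD D) N h3 h4
  linarith

/-- **Almost sure convergence at the exact threshold.** -/
theorem thr (P : Set ℕ) (hP : Tendsto (mass P ll) atTop atTop) (k : ℕ) (hk : 1 ≤ k)
    (a b : Fin k → ℕ) (ha : ∀ i, 1 ≤ a i) (hab : ∀ i j, i ≠ j → a i * b j ≠ a j * b i)
    (w : ℕ → ℝ) (hw : ∀ n, |w n| ≤ 1) :
    ∀ᵐ ω ∂cm, Tendsto (fun N : ℕ => (∑ n ∈ Icc 1 N, w n *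
      ∏ i, mult (sg P es ω) (a i * n + b i)) / N) atTop (𝓝 0) := by
  classical
  set i0 : Fin k := ⟨0, hk⟩ with hi0
  set M : ℕ → ℕ := fun n => ∏ i, (a i * n + b i) with hM
  have hpos : ∀ n, 1 ≤ n → ∀ i, a i * n + b i ≠ 0 := by
    intro n hn i
    have := Nat.mul_pos (ha i) hn
    omega
  have hM0 : ∀ n, 1 ≤ n → M n ≠ 0 := fun n hn => Finset.prod_ne_zero_iff.2 fun i _ => hpos n hn i
  set A : ℕ := (∑ i, a i) * (∑ i, b i + 1) with hA
  have haA : ∀ i, a i ≤ ∑ i, a i := fun i =>
    Finset.single_le_sum (f := a) (fun _ _ => Nat.zero_le _) (Finset.mem_univ i)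
  have hbA : ∀ i, b i ≤ ∑ i, b i := fun i =>
    Finset.single_le_sum (f := b) (fun _ _ => Nat.zero_le _) (Finset.mem_univ i)
  have hA1 : ∀ i, a i ≤ A := fun i => by
    have h1 := haA i
    have h2 : (∑ i, a i) * 1 ≤ (∑ i, a i) * (∑ i, b i + 1) := Nat.mul_le_mul_left _ (by omega)
    omega
  have hA2 : ∀ i j, a i * b j ≤ A := fun i j => by
    have h1 := Nat.mul_le_mul (haA i) ((hbA j).trans (Nat.le_succ _))
    exact h1
  have hll : Tendsto (fun N : ℕ => Real.log (Real.log (N : ℝ))) atTop atTop :=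
    Real.tendsto_log_atTop.comp (Real.tendsto_log_atTop.comp tendsto_natCast_atTop_atTop)
  have hlog : Tendsto (fun N : ℕ => Real.log (N : ℝ)) atTop atTop :=
    Real.tendsto_log_atTop.comp tendsto_natCast_atTop_atTop
  set F : (ℕ → Bool) → ℕ → ℝ := fun ω n => w n * mult (sg P es ω) (M n) with hF
  have hFF : ∀ ω, ∀ N : ℕ, ∑ n ∈ Icc 1 N, w n * ∏ i, mult (sg P es ω) (a i * n + b i) =
      ∑ n ∈ Icc 1 N, F ω n := by
    intro ω N
    refine Finset.sum_congr rfl fun n hn => ?_
    rw [Finset.mem_Icc] at hn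
    simp only [hF, hM]
    rw [mult_prod _ _ _ fun i _ => hpos n hn.1 i]
  have hF1 : ∀ ω n, |F ω n| ≤ 1 := by
    intro ω n
    simp only [hF]
    rw [abs_mul, abs_mult _ (abs_sg signs P ω), mul_one]
    exact hw n
  obtain ⟨C1, hC1⟩ := blk_mass P fun _ => 0
  obtain ⟨C2, hC2⟩ := blk_le P
  -- the probabilities
  have hprob : ∀ η : ℝ, 0 < η → ∀ᶠ N : ℕ in atTop,
      cm.real {ω | 4 * η * N < |∑ n ∈ Icc 1 N, F ω n|} ≤ 2 / Real.log N ^ 2 := by
    intro η hη
    set D : ℝ := 1 + 16 * k ^ 2 / η ^ 2 + 2 / η with hD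
    have hk2 : (0 : ℝ) ≤ 16 * (k : ℝ) ^ 2 / η ^ 2 := by positivity
    have h2η : 0 < 2 / η := by positivity
    have hD1 : 1 ≤ D := by linarith
    have hmD := mass_llD P hP D hD1
    obtain ⟨C3, hC3⟩ := blk_mass P (llD D)
    filter_upwards [hmD.eventually_ge_atTop (1 + 1 / η + C3), hll.eventually_ge_atTop (A + 1),
      hll.eventually_ge_atTop |C2|, rt_small η hη, eventually_ge_atTop 125,
      hlog.eventually_gt_atTop 0] with N g1 g2 g3 g4 g5 g6
    have hN1 : 1 ≤ N := by omega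
    have hNr : (0 : ℝ) < N := by exact_mod_cast hN1
    set x := Real.log (Real.log (N : ℝ)) with hx
    have hA0 : (0 : ℝ) ≤ A := Nat.cast_nonneg _
    have hx1 : 1 ≤ x := by linarith
    set u := llD D N with hu
    have huD : D * x ≤ u := Nat.le_ceil _
    have hux : x ≤ u := by nlinarith
    have hu1 : 1 ≤ u := by
      have : (1 : ℝ) ≤ u := by linarith
      exact_mod_cast this
    have hur : (0 : ℝ) < u := by exact_mod_cast hu1
    have hAu : A < u := by
      have : (A : ℝ) < u := by linarith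
      exact_mod_cast this
    set B := blk P (llD D) N with hB
    have hBb : ∀ p ∈ B, p ∈ Ioc u (rt N) ∧ p.Prime ∧ p ∈ P := by
      intro p hp
      rw [hB] at hp
      unfold blk at hp
      obtain ⟨h3, h4⟩ := Finset.mem_filter.1 hp
      exact ⟨h3, h4⟩
    set L : ℝ := ∑ p ∈ B, (1 : ℝ) / p with hL
    have h1η : 0 < 1 / η := by positivity
    have hLb : 1 + 1 / η ≤ L := by
      have := hC3 N g5
      linarith
    have hL1 : 1 ≤ L := by linarith
    have hLu : L ≤ 2 * x := by
      have e1 := hC2 (llD D) N (by omega)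
      have e2 := le_abs_self C2
      have e3 : L ≤ x + C2 := e1
      linarith
    have hrtN : rt N ≤ N := (Nat.le_self_pow (by norm_num) _).trans (rt_pow N)
    have hap : ∀ i, ∀ p ∈ B, ¬ p ∣ a i := by
      intro i p hp hd
      have h1 := Nat.le_of_dvd (ha i) hd
      have h2 := (Finset.mem_Ioc.1 (hBb p hp).1).1
      have h3 := hA1 i
      omega
    have hos := one_sum P N u (rt N) k hN1 hu1 (rt_pow N) hk B
      (fun p hp => (hBb p hp).2) (fun p hp => (hBb p hp).1) (a i0) (b i0) (hap i0) M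
      (fun n hn => by
        rw [Finset.mem_Icc] at hn
        refine ⟨∏ i ∈ Finset.univ.erase i0, (a i * n + b i), ?_, hM0 n hn.1, ?_⟩
        · simp only [hM]
          rw [← Finset.mul_prod_erase _ _ (Finset.mem_univ i0)]
        · intro p hp hd hd2
          obtain ⟨j, hj, hj2⟩ := ((hBb p hp).2.1.prime.dvd_finsetProd_iff _).1 hd2
          have hji : j ≠ i0 := Finset.ne_of_mem_erase hj
          apply hab j i0 hji
          have h3 : a j * b i0 + a i0 * (a j * n + b j) = a i0 * b j + a j * (a i0 * n + b i0) := by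
            ring
          have h4 : a j * b i0 ≡ a i0 * b j [MOD p] := by
            have h5 : a j * b i0 + a i0 * (a j * n + b j) ≡ a j * b i0 + 0 [MOD p] :=
              Nat.ModEq.add_left _ ((Nat.modEq_zero_iff_dvd).2 (dvd_mul_of_dvd_right hj2 _))
            have h6 : a i0 * b j + a j * (a i0 * n + b i0) ≡ a i0 * b j + 0 [MOD p] :=
              Nat.ModEq.add_left _ ((Nat.modEq_zero_iff_dvd).2 (dvd_mul_of_dvd_right hd _))
            rw [h3] at h5
            simpa using h5.symm.trans h6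
          have h5 := (Finset.mem_Ioc.1 (hBb p hp).1).1
          have h6 := hA2 j i0
          have h7 := hA2 i0 j
          have h8 := Nat.ModEq.eq_of_lt_of_lt h4 (by omega) (by omega)
          rw [h8])
      (fun p hp => by
        have h1 : (Icc 1 N).filter (fun n => p ∣ M n) ⊆
            Finset.univ.biUnion fun i => (Icc 1 N).filter fun n => p ∣ a i * n + b i := by
          intro n hn
          obtain ⟨h2, h3⟩ := Finset.mem_filter.1 hn
          obtain ⟨j, hj1, hj2⟩ := ((hBb p hp).2.1.prime.dvd_finsetProd_iff _).1 h3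
          exact Finset.mem_biUnion.2 ⟨j, hj1, Finset.mem_filter.2 ⟨h2, hj2⟩⟩
        have h2 : ((((Icc 1 N).filter fun n => p ∣ M n).card : ℕ) : ℝ) ≤
            ∑ i, ((((Icc 1 N).filter fun n => p ∣ a i * n + b i).card : ℕ) : ℝ) := by
          exact_mod_cast (Finset.card_le_card h1).trans Finset.card_biUnion_le
        refine h2.trans ((Finset.sum_le_sum (g := fun _ => (N : ℝ) / p + 1) fun i _ => ?_).trans ?_)
        · have hcop : Nat.Coprime (a i) p := by
            rw [Nat.coprime_comm, Nat.Prime.coprime_iff_not_dvd (hBb p hp).2.1]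
            exact hap i p hp
          have := (abs_le.1 (card_dvd N p (a i) (b i) (hBb p hp).2.1.pos hcop)).2
          linarith
        · rw [Finset.sum_const, Finset.card_univ, Fintype.card_fin, nsmul_eq_mul])
      w hw L rfl hL1 η hη
    have hexp : 2 * Real.exp (-(η ^ 2 * u / (8 * (k : ℝ) ^ 2))) ≤ 2 / Real.log N ^ 2 := by
      have hkr : (0 : ℝ) < k := by exact_mod_cast hk
      have h1 : 2 * x ≤ η ^ 2 * u / (8 * (k : ℝ) ^ 2) := by
        rw [le_div_iff₀ (by positivity)]
        have h2 : 16 * (k : ℝ) ^ 2 / η ^ 2 * x ≤ u := by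
          refine le_trans ?_ huD
          refine mul_le_mul_of_nonneg_right ?_ (by linarith)
          linarith
        have h3 : η ^ 2 * (16 * (k : ℝ) ^ 2 / η ^ 2 * x) = 2 * x * (8 * (k : ℝ) ^ 2) := by
          field_simp
          ring
        rw [← h3]
        exact mul_le_mul_of_nonneg_left h2 (by positivity)
      rw [Real.exp_neg, ← div_eq_mul_inv]
      refine div_le_div_of_nonneg_left (by norm_num) (by positivity) ?_
      calc Real.log N ^ 2 = Real.exp (2 * x) := by
            rw [two_mul, Real.exp_add, hx, Real.exp_log g6]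
            ring
        _ ≤ _ := Real.exp_le_exp.2 h1
    refine le_trans (measureReal_mono ?_) (hos.trans hexp)
    intro ω hω
    simp only [Set.mem_setOf_eq] at hω ⊢
    have e1 : (N : ℝ) / L ≤ η * N := by
      rw [div_le_iff₀ (by linarith)]
      have h1 : 1 ≤ η * L := by
        have h2 : η * (1 / η) = 1 := by field_simp
        nlinarith
      nlinarith
    have e2 : (N : ℝ) * L / u ≤ η * N := by
      rw [div_le_iff₀ hur]
      have h1 : L ≤ η * u := by
        have h2 : 2 / η * x ≤ u := by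
          refine le_trans ?_ huD
          refine mul_le_mul_of_nonneg_right ?_ (by linarith)
          linarith
        have h3 : η * (2 / η * x) = 2 * x := by field_simp
        have h4 := mul_le_mul_of_nonneg_left h2 hη.le
        linarith
      nlinarith
    linarith
  -- geometric subsequences
  have hsub : ∀ c : ℝ, 1 < c → ∀ᵐ ω ∂cm, Tendsto (fun j : ℕ =>
      (∑ n ∈ Icc 1 ⌊c ^ j⌋₊, F ω n) / (⌊c ^ j⌋₊ : ℝ)) atTop (𝓝 0) := by
    intro c hc
    have hlc : 0 < Real.log c := Real.log_pos hc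
    have hcj : Tendsto (fun j : ℕ => ⌊c ^ j⌋₊) atTop atTop :=
      (tendsto_nat_floor_atTop (α := ℝ)).comp (tendsto_pow_atTop_atTop_of_one_lt hc)
    have hev : ∀ᶠ j : ℕ in atTop, j / 2 * Real.log c ≤ Real.log (⌊c ^ j⌋₊ : ℝ) := by
      have h1 : Tendsto (fun j : ℕ => (j : ℝ) * (Real.log c / 2)) atTop atTop :=
        tendsto_natCast_atTop_atTop.atTop_mul_const (by positivity)
      filter_upwards [h1.eventually_ge_atTop (Real.log 2), hcj.eventually_ge_atTop 1] with j h2 h3
      have h4 : c ^ j ≤ 2 * (⌊c ^ j⌋₊ : ℝ) := by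
        have h5 := (Nat.lt_floor_add_one (c ^ j)).le
        have h6 : (1 : ℝ) ≤ ⌊c ^ j⌋₊ := by exact_mod_cast h3
        linarith
      have h6 : (0 : ℝ) < ⌊c ^ j⌋₊ := by exact_mod_cast h3
      have h7 := Real.log_le_log (by positivity) h4
      rw [Real.log_pow, Real.log_mul (by norm_num) h6.ne'] at h7
      linarith
    have hη : ∀ m : ℕ, ∀ᵐ ω ∂cm, ∀ᶠ j : ℕ in atTop,
        |∑ n ∈ Icc 1 ⌊c ^ j⌋₊, F ω n| ≤ 4 * (1 / ((m : ℝ) + 1)) * (⌊c ^ j⌋₊ : ℝ) := by
      intro m
      have hm0 : (0 : ℝ) < 1 / ((m : ℝ) + 1) := by positivity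
      have h1 := (hcj.eventually (hprob _ hm0)).and (hev.and (eventually_ge_atTop 1))
      obtain ⟨j0, hj0⟩ := eventually_atTop.1 h1
      have hs : ∑' j, cm ((fun j => {ω | 4 * (1 / ((m : ℝ) + 1)) * (⌊c ^ (j + j0)⌋₊ : ℝ) <
          |∑ n ∈ Icc 1 ⌊c ^ (j + j0)⌋₊, F ω n|}) j) ≠ ⊤ := by
        have h2 : ∀ j, cm {ω | 4 * (1 / ((m : ℝ) + 1)) * (⌊c ^ (j + j0)⌋₊ : ℝ) <
            |∑ n ∈ Icc 1 ⌊c ^ (j + j0)⌋₊, F ω n|} ≤
            ENNReal.ofReal (8 / Real.log c ^ 2 * (1 / ((j + j0 : ℕ) : ℝ) ^ 2)) := by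
          intro j
          obtain ⟨h3, h4, h5⟩ := hj0 (j + j0) (by omega)
          rw [← ENNReal.ofReal_toReal (measure_ne_top cm _)]
          refine ENNReal.ofReal_le_ofReal (le_trans h3 ?_)
          have hj : (0 : ℝ) < ((j + j0 : ℕ) : ℝ) := by exact_mod_cast (by omega : 0 < j + j0)
          have h7 : (((j + j0 : ℕ) : ℝ) / 2 * Real.log c) ^ 2 ≤
              Real.log (⌊c ^ (j + j0)⌋₊ : ℝ) ^ 2 := by
            have : 0 ≤ ((j + j0 : ℕ) : ℝ) / 2 * Real.log c := by positivity
            gcongr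
          calc 2 / Real.log (⌊c ^ (j + j0)⌋₊ : ℝ) ^ 2 ≤
              2 / (((j + j0 : ℕ) : ℝ) / 2 * Real.log c) ^ 2 :=
                div_le_div_of_nonneg_left (by norm_num) (by positivity) h7
            _ = 8 / Real.log c ^ 2 * (1 / ((j + j0 : ℕ) : ℝ) ^ 2) := by
                field_simp
                norm_num
        refine ne_top_of_le_ne_top ?_ (ENNReal.tsum_le_tsum h2)
        have h3 : Summable fun j : ℕ => 8 / Real.log c ^ 2 * (1 / ((j + j0 : ℕ) : ℝ) ^ 2) :=
          ((summable_nat_add_iff j0).2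
            (Real.summable_one_div_nat_pow.2 (by norm_num : 1 < 2))).mul_left _
        rw [← ENNReal.ofReal_tsum_of_nonneg (fun j => by positivity) h3]
        exact ENNReal.ofReal_ne_top
      filter_upwards [ae_eventually_notMem hs] with ω hω
      obtain ⟨j1, hj1⟩ := eventually_atTop.1 hω
      refine eventually_atTop.2 ⟨j1 + j0, fun j hj => ?_⟩
      have h2 := hj1 (j - j0) (by omega)
      simp only [Nat.sub_add_cancel (by omega : j0 ≤ j)] at h2
      exact not_lt.1 h2
    rw [← ae_all_iff] at hη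
    filter_upwards [hη] with ω hω
    rw [Metric.tendsto_atTop']
    intro e he
    obtain ⟨m, hm⟩ := exists_nat_one_div_lt (by positivity : (0 : ℝ) < e / 4)
    obtain ⟨j1, hj1⟩ := eventually_atTop.1 ((hω m).and (hcj.eventually_ge_atTop 1))
    refine ⟨j1, fun j hj => ?_⟩
    obtain ⟨h2, h3⟩ := hj1 j hj.le
    have hNr : (0 : ℝ) < (⌊c ^ j⌋₊ : ℝ) := by exact_mod_cast h3
    rw [Real.dist_eq, sub_zero, abs_div, Nat.abs_cast, div_lt_iff₀ hNr]
    nlinarith
  have hall : ∀ᵐ ω ∂cm, ∀ m : ℕ, Tendsto (fun j : ℕ =>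
      (∑ n ∈ Icc 1 ⌊(1 + 1 / ((m : ℝ) + 1)) ^ j⌋₊, F ω n) /
        (⌊(1 + 1 / ((m : ℝ) + 1)) ^ j⌋₊ : ℝ)) atTop (𝓝 0) := by
    rw [ae_all_iff]
    intro m
    refine hsub _ ?_
    have : 0 < 1 / ((m : ℝ) + 1) := by positivity
    linarith
  filter_upwards [hall] with ω hω
  have h1 := interp (F ω) (hF1 ω) hω
  refine h1.congr fun N => ?_
  rw [hFF]

end Pool.Agent.Q163.RX
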