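import Pool.Agent.Q163.RX.Thr

/-!
# Below the threshold: bounded functions which correlate with every choice of signs
-/

set_option autoImplicit false

namespace Pool.Agent.Q163.RX

open Finset Filter Topology MeasureTheory ProbabilityTheory Pool.Agent.Q163.RP

/-- no element of `Q` divides `n` -/
def free (Q : Finset ℕ) (n : ℕ) : Prop := ∀ q ∈ Q, ¬ q ∣ n

open Classical in
theorem harm_free (N : ℕ) (Q : Finset ℕ) (hQ : ∀ q ∈ Q, q.Prime) :
    (∏ q ∈ Q, (1 - (1 : ℝ) / q)) * ∑ n ∈ Icc 1 N, (1 : ℝ) / n ≤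
      ∑ n ∈ (Icc 1 N).filter (fun n => free Q n), (1 : ℝ) / n := by
  induction Q using Finset.induction_on with
  | empty =>
    rw [Finset.prod_empty, one_mul]
    refine le_of_eq (Finset.sum_congr ?_ fun _ _ => rfl)
    ext n
    simp [free]
  | insert q Q hq ih =>
    have ih' := ih fun p hp => hQ p (Finset.mem_insert_of_mem hp)
    have hqp : q.Prime := hQ q (Finset.mem_insert_self _ _)
    have hq0 : (0 : ℝ) < q := by exact_mod_cast hqp.pos
    have hq1 : (1 : ℝ) / q ≤ 1 := by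
      rw [div_le_one hq0]
      exact_mod_cast hqp.one_lt.le
    rw [Finset.prod_insert hq, mul_assoc]
    have h1 := mul_le_mul_of_nonneg_left ih' (by linarith : 0 ≤ 1 - (1 : ℝ) / q)
    refine h1.trans ?_
    have h2 := Finset.sum_filter_add_sum_filter_not ((Icc 1 N).filter (fun n => free Q n))
      (fun n => q ∣ n) (fun n : ℕ => (1 : ℝ) / n)
    have h3 : ((Icc 1 N).filter (fun n => free Q n)).filter (fun n => ¬ q ∣ n) =
        (Icc 1 N).filter (fun n => free (insert q Q) n) := by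
      ext n
      simp only [Finset.mem_filter, free, Finset.forall_mem_insert]
      tauto
    have h4 : ∑ n ∈ ((Icc 1 N).filter (fun n => free Q n)).filter (fun n => q ∣ n), (1 : ℝ) / n ≤
        (1 / q) * ∑ n ∈ (Icc 1 N).filter (fun n => free Q n), (1 : ℝ) / n := by
      rw [Finset.mul_sum]
      have h5 : ((Icc 1 N).filter (fun n => free Q n)).filter (fun n => q ∣ n) ⊆
          ((Icc 1 N).filter (fun n => free Q n)).image (fun m => q * m) := by
        intro n hn
        obtain ⟨h6, h7⟩ := Finset.mem_filter.1 hn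
        obtain ⟨h8, h9⟩ := Finset.mem_filter.1 h6
        rw [Finset.mem_Icc] at h8
        obtain ⟨m, rfl⟩ := h7
        refine Finset.mem_image.2 ⟨m, Finset.mem_filter.2 ⟨Finset.mem_Icc.2 ⟨?_, ?_⟩, ?_⟩, rfl⟩
        · rcases Nat.eq_zero_or_pos m with h10 | h10
          · rw [h10, mul_zero] at h8
            omega
          · exact h10
        · refine le_trans ?_ h8.2
          exact Nat.le_mul_of_pos_left m hqp.pos
        · intro p hp hpm
          exact h9 p hp (dvd_mul_of_dvd_right hpm q)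
      refine (Finset.sum_le_sum_of_subset_of_nonneg h5 fun n _ _ => by positivity).trans ?_
      rw [Finset.sum_image (fun a _ b _ h => Nat.eq_of_mul_eq_mul_left hqp.pos h)]
      refine Finset.sum_le_sum fun m _ => ?_
      push_cast
      rw [one_div_mul_one_div]
    rw [h3] at h2
    have h5 : (1 - (1 : ℝ) / q) * ∑ n ∈ (Icc 1 N).filter (fun n => free Q n), (1 : ℝ) / n =
        ∑ n ∈ (Icc 1 N).filter (fun n => free Q n), (1 : ℝ) / n -
          (1 / q) * ∑ n ∈ (Icc 1 N).filter (fun n => free Q n), (1 : ℝ) / n := by ring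
    linarith

lemma prod_ge (Q : Finset ℕ) (hQ : ∀ q ∈ Q, q.Prime) :
    Real.exp (-(2 * ∑ q ∈ Q, (1 : ℝ) / q)) ≤ ∏ q ∈ Q, (1 - (1 : ℝ) / q) := by
  rw [Finset.mul_sum, ← Finset.sum_neg_distrib, Real.exp_sum]
  refine Finset.prod_le_prod (fun q _ => (Real.exp_pos _).le) fun q hq => ?_
  have hq2 : (2 : ℝ) ≤ q := by exact_mod_cast (hQ q hq).two_le
  set t : ℝ := 1 / q with ht
  have ht0 : 0 < t := by positivity
  have ht1 : t ≤ 1 / 2 := by
    rw [ht]
    exact one_div_le_one_div_of_le (by norm_num) hq2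
  have h1 : 1 + 2 * t ≤ Real.exp (2 * t) := by
    have := Real.add_one_le_exp (2 * t)
    linarith
  rw [Real.exp_neg, inv_le_comm₀ (Real.exp_pos _) (by linarith)]
  refine le_trans ?_ h1
  rw [inv_le_comm₀ (by linarith) (by linarith)]
  rw [inv_eq_one_div, div_le_iff₀ (by linarith)]
  nlinarith

open Classical in
/-- many dyadic blocks with many free numbers -/
theorem good_blocks (I : ℕ) (Q : Finset ℕ) (hQ : ∀ q ∈ Q, q.Prime) (K : ℝ)
    (hK : ∑ q ∈ Q, (1 : ℝ) / q ≤ K) :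
    Real.exp (-(2 * K)) / 4 * I ≤ (((range I).filter fun i => Real.exp (-(2 * K)) / 4 * 2 ^ i ≤
      ((((Ico (2 ^ i) (2 ^ (i + 1))).filter fun n => free Q n).card : ℕ) : ℝ)).card : ℝ) := by
  set κ := Real.exp (-(2 * K)) with hκ
  have hκ0 : 0 < κ := Real.exp_pos _
  set f : ℕ → ℝ := fun i =>
    ((((Ico (2 ^ i) (2 ^ (i + 1))).filter fun n => free Q n).card : ℕ) : ℝ) / 2 ^ i with hf
  have hf0 : ∀ i, 0 ≤ f i := fun i => by positivity
  have hf1 : ∀ i, f i ≤ 1 := by
    intro i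
    simp only [hf]
    rw [div_le_one (by positivity)]
    have h1 := Finset.card_filter_le (Ico (2 ^ i) (2 ^ (i + 1))) (fun n => free Q n)
    rw [Nat.card_Ico, pow_succ] at h1
    have h2 : 2 ^ i * 2 - 2 ^ i = 2 ^ i := by omega
    rw [h2] at h1
    exact_mod_cast h1
  have hunion : ∀ I : ℕ, ∑ n ∈ (Icc 1 (2 ^ I - 1)).filter (fun n => free Q n), (1 : ℝ) / n ≤
      ∑ i ∈ range I, f i := by
    intro I
    induction I with
    | zero => simp
    | succ I ih =>
      rw [Finset.sum_range_succ]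
      have h1 : (Icc 1 (2 ^ (I + 1) - 1)).filter (fun n => free Q n) ⊆
          (Icc 1 (2 ^ I - 1)).filter (fun n => free Q n) ∪
            (Ico (2 ^ I) (2 ^ (I + 1))).filter (fun n => free Q n) := by
        intro n hn
        obtain ⟨h2, h3⟩ := Finset.mem_filter.1 hn
        rw [Finset.mem_Icc] at h2
        by_cases h4 : n < 2 ^ I
        · exact Finset.mem_union_left _ (Finset.mem_filter.2 ⟨Finset.mem_Icc.2 ⟨h2.1, by omega⟩, h3⟩)
        · refine Finset.mem_union_right _ (Finset.mem_filter.2 ⟨Finset.mem_Ico.2 ⟨by omega, ?_⟩, h3⟩)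
          have : 0 < 2 ^ (I + 1) := by positivity
          omega
      refine (Finset.sum_le_sum_of_subset_of_nonneg h1 fun n _ _ => by positivity).trans ?_
      have h2 := Finset.sum_union_inter (s₁ := (Icc 1 (2 ^ I - 1)).filter (fun n => free Q n))
        (s₂ := (Ico (2 ^ I) (2 ^ (I + 1))).filter (fun n => free Q n))
        (f := fun n : ℕ => (1 : ℝ) / n)
      have h3 : 0 ≤ ∑ n ∈ (Icc 1 (2 ^ I - 1)).filter (fun n => free Q n) ∩
          (Ico (2 ^ I) (2 ^ (I + 1))).filter (fun n => free Q n), (1 : ℝ) / n :=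
        Finset.sum_nonneg fun n _ => by positivity
      have h4 : ∑ n ∈ (Ico (2 ^ I) (2 ^ (I + 1))).filter (fun n => free Q n), (1 : ℝ) / n ≤ f I := by
        simp only [hf]
        rw [div_eq_mul_one_div, ← nsmul_eq_mul, ← Finset.sum_const]
        refine Finset.sum_le_sum fun n hn => ?_
        have h5 := (Finset.mem_Ico.1 (Finset.mem_filter.1 hn).1).1
        refine one_div_le_one_div_of_le (by positivity) ?_
        exact_mod_cast h5
      linarith
  have hlow : κ * (I / 2) ≤ ∑ i ∈ range I, f i := by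
    refine le_trans ?_ (hunion I)
    refine le_trans ?_ (harm_free _ Q hQ)
    have h1 : κ ≤ ∏ q ∈ Q, (1 - (1 : ℝ) / q) := by
      refine le_trans ?_ (prod_ge Q hQ)
      rw [hκ]
      exact Real.exp_le_exp.2 (by linarith)
    have h2 : (I : ℝ) / 2 ≤ ∑ n ∈ (Icc 1 (2 ^ I - 1) : Finset ℕ), (1 : ℝ) / n := by
      have h3 := log_add_one_le_harmonic (2 ^ I - 1)
      rw [harmonic_eq_sum_Icc] at h3
      push_cast at h3
      have h4 : 1 ≤ 2 ^ I := Nat.one_le_two_pow
      rw [Nat.cast_sub h4] at h3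
      push_cast at h3
      rw [sub_add_cancel, Real.log_pow] at h3
      have h5 : (1 / 2 : ℝ) ≤ Real.log 2 := by
        have := Real.log_two_gt_d9
        linarith
      have h6 : (0 : ℝ) ≤ I := Nat.cast_nonneg _
      have h7 : ∑ n ∈ (Icc 1 (2 ^ I - 1) : Finset ℕ), (1 : ℝ) / n =
          ∑ n ∈ (Icc 1 (2 ^ I - 1) : Finset ℕ), ((n : ℝ))⁻¹ := by
        simp only [one_div]
      rw [h7]
      nlinarith
    exact mul_le_mul h1 h2 (by positivity) (hκ0.le.trans h1)
  set G := (range I).filter fun i => κ / 4 * 2 ^ i ≤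
      ((((Ico (2 ^ i) (2 ^ (i + 1))).filter fun n => free Q n).card : ℕ) : ℝ) with hG
  have h1 := Finset.sum_filter_add_sum_filter_not (range I) (fun i => κ / 4 * 2 ^ i ≤
      ((((Ico (2 ^ i) (2 ^ (i + 1))).filter fun n => free Q n).card : ℕ) : ℝ)) f
  have h2 : ∑ i ∈ G, f i ≤ G.card := by
    refine (Finset.sum_le_sum fun i _ => hf1 i).trans ?_
    simp
  have h3 : ∑ i ∈ (range I).filter (fun i => ¬ κ / 4 * 2 ^ i ≤
      ((((Ico (2 ^ i) (2 ^ (i + 1))).filter fun n => free Q n).card : ℕ) : ℝ)), f i ≤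
      κ / 4 * I := by
    refine (Finset.sum_le_sum (g := fun _ => κ / 4) fun i hi => ?_).trans ?_
    · have h4 := (Finset.mem_filter.1 hi).2
      push Not at h4
      simp only [hf]
      rw [div_le_iff₀ (by positivity)]
      exact h4.le
    · rw [Finset.sum_const, nsmul_eq_mul, mul_comm]
      refine mul_le_mul_of_nonneg_left ?_ (by positivity)
      have := Finset.card_filter_le (range I) (fun i => ¬ κ / 4 * 2 ^ i ≤
        ((((Ico (2 ^ i) (2 ^ (i + 1))).filter fun n => free Q n).card : ℕ) : ℝ))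
      rw [Finset.card_range] at this
      exact_mod_cast this
  have h4 : κ * (I / 2) = κ / 4 * I + κ / 4 * I := by ring
  linarith

/-- glueing of local assignments -/
theorem glue {α β : Type*} [Inhabited α] (R : ℕ → α → β → Prop)
    (h : ∀ x0 : ℕ, ∃ x1 : ℕ, x0 < x1 ∧ ∃ f : ℕ → α, ∀ ω : β, ∃ i, x0 ≤ i ∧ i < x1 ∧ R i (f i) ω) :
    ∃ f : ℕ → α, ∀ (ω : β) (x0 : ℕ), ∃ i, x0 ≤ i ∧ R i (f i) ω := by
  classical
  choose X hX F hF using h
  set s : ℕ → ℕ := fun k => X^[k] 0 with hs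
  have hs1 : ∀ k, s (k + 1) = X (s k) := fun k => Function.iterate_succ_apply' X k 0
  have hmono : StrictMono s := strictMono_nat_of_lt_succ fun k => by
    rw [hs1]
    exact hX _
  set kk : ℕ → ℕ := fun i => Nat.findGreatest (fun k => s k ≤ i) i with hkk
  refine ⟨fun i => F (s (kk i)) i, fun ω x0 => ?_⟩
  obtain ⟨i, h1, h2, h3⟩ := hF (s x0) ω
  have h4 : kk i = x0 := by
    have h5 : x0 ≤ i := (hmono.le_apply).trans h1
    have h6 : x0 ≤ kk i := Nat.le_findGreatest h5 h1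
    have h7 : s (kk i) ≤ i := Nat.findGreatest_spec (P := fun k => s k ≤ i) h5 h1
    have h8 : kk i < x0 + 1 := by
      by_contra hcon
      push Not at hcon
      have h9 := hmono.monotone hcon
      rw [hs1] at h9
      omega
    omega
  refine ⟨i, (hmono.le_apply).trans h1, ?_⟩
  show R i (F (s (kk i)) i) ω
  rw [h4]
  exact h3

open Classical in
/-- a sign pattern -/
noncomputable def pat (S : Finset ℕ) (p : ℕ) : Bool := decide (p ∈ S)

lemma mult_pat (P : Set ℕ) (Q S : Finset ℕ) (ω : ℕ → Bool) (y X n : ℕ)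
    (hQ : ∀ p, p.Prime → p ∈ P → y < p → p < X → p ∈ Q) (hn : n < X) (hfr : free Q n) (hn0 : n ≠ 0)
    (hS : ∀ p, p ≤ y → (p ∈ S ↔ ω p = true)) :
    mult (sg P es ω) n = mult (sg P es (pat S)) n := by
  classical
  unfold mult
  refine Finset.prod_congr rfl fun p hp => ?_
  congr 1
  unfold sg
  by_cases hpP : p ∈ P
  · rw [if_pos hpP, if_pos hpP]
    have hpp := Nat.prime_of_mem_primeFactors hp
    have hpd := Nat.dvd_of_mem_primeFactors hp
    have hpy : p ≤ y := by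
      by_contra hcon
      push Not at hcon
      exact hfr p (hQ p hpp hpP hcon ((Nat.le_of_dvd (Nat.pos_of_ne_zero hn0) hpd).trans_lt hn)) hpd
    have h1 := hS p hpy
    unfold es sgn pat
    by_cases h2 : p ∈ S
    · rw [if_pos (h1.1 h2)]
      simp [h2]
    · have h3 : ¬ ω p = true := fun h => h2 (h1.2 h)
      rw [if_neg h3]
      simp [h2]
  · rw [if_neg hpP, if_neg hpP]

open Classical in
/-- the property of a block -/
def RR (P : Set ℕ) (c : ℝ) (i : ℕ) (a : Finset ℕ × Finset ℕ) (ω : ℕ → Bool) : Prop :=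
  c * 2 ^ i ≤ ((((Ico (2 ^ i) (2 ^ (i + 1))).filter fun n => free a.1 n).card : ℕ) : ℝ) ∧
    ∀ n ∈ Ico (2 ^ i) (2 ^ (i + 1)), free a.1 n →
      mult (sg P es ω) n = mult (sg P es (pat a.2)) n

open Classical in
theorem local_step (P : Set ℕ) (K : ℝ) (hK : ∀ N0 : ℕ, ∃ N, N0 ≤ N ∧ mass P ll N ≤ K) (x0 : ℕ) :
    ∃ x1 : ℕ, x0 < x1 ∧ ∃ f : ℕ → Finset ℕ × Finset ℕ, ∀ ω : ℕ → Bool,
      ∃ i, x0 ≤ i ∧ i < x1 ∧ RR P (Real.exp (-(2 * K)) / 4) i (f i) ω := by
  set κ := Real.exp (-(2 * K)) / 4 with hκ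
  have hκ0 : 0 < κ := by
    have := Real.exp_pos (-(2 * K))
    positivity
  have hlog : Tendsto (fun N : ℕ => Real.log (N : ℝ)) atTop atTop :=
    Real.tendsto_log_atTop.comp tendsto_natCast_atTop_atTop
  -- the size of N
  have hsize : ∀ᶠ X : ℝ in atTop, 4 * X ^ (3 / 4 : ℝ) + 2 + x0 ≤ κ * (X - 1) := by
    have h1 := (tendsto_rpow_atTop (by norm_num : (0 : ℝ) < 1 / 4)).eventually_ge_atTop (16 / κ)
    filter_upwards [h1, eventually_ge_atTop (1 : ℝ), eventually_ge_atTop ((κ + 2 + x0) * 4 / κ)] with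
      X h2 h3 h4
    set t : ℝ := X ^ (1 / 4 : ℝ) with ht
    have hX0 : 0 ≤ X := by linarith
    have ht0 : 0 ≤ t := Real.rpow_nonneg hX0 _
    have e1 : t ^ 4 = X := by
      rw [ht, ← Real.rpow_natCast, ← Real.rpow_mul hX0]
      norm_num
    have e2 : t ^ 3 = X ^ (3 / 4 : ℝ) := by
      rw [ht, ← Real.rpow_natCast, ← Real.rpow_mul hX0]
      norm_num
    rw [← e2]
    rw [div_le_iff₀ hκ0] at h2 h4
    have e3 : 16 * t ^ 3 ≤ κ * X := by
      rw [← e1]
      have : 0 ≤ t ^ 3 := by positivity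
      nlinarith
    nlinarith
  have hev := hlog.eventually hsize
  obtain ⟨N0, hN0⟩ := eventually_atTop.1 (hev.and (hlog.eventually_ge_atTop (Real.exp 1)))
  obtain ⟨N, hN, hmass⟩ := hK (N0 + x0 + 3)
  obtain ⟨hs1, hs2⟩ := hN0 N (by omega)
  have hN3 : 3 ≤ N := by omega
  have hNr : (0 : ℝ) < N := by exact_mod_cast (by omega : 0 < N)
  set X := Real.log (N : ℝ) with hX
  have hX1 : 1 ≤ X := le_trans (by
    have := Real.add_one_le_exp (1 : ℝ)
    linarith) hs2
  set I := Nat.log 2 N with hI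
  have hI1 : 2 ^ I ≤ N := Nat.pow_log_le_self 2 (by omega)
  have hI2 : N < 2 ^ (I + 1) := Nat.lt_pow_succ_log_self (by norm_num) N
  have hIX : X - 1 ≤ I := by
    have h1 : (N : ℝ) ≤ 2 ^ (I + 1) := by exact_mod_cast hI2.le
    have h2 := Real.log_le_log hNr h1
    rw [Real.log_pow] at h2
    have h3 : Real.log 2 ≤ 1 := by
      have := Real.log_two_lt_d9
      linarith
    have h4 : (0 : ℝ) ≤ ((I + 1 : ℕ) : ℝ) := Nat.cast_nonneg _
    have h5 : ((I + 1 : ℕ) : ℝ) * Real.log 2 ≤ ((I + 1 : ℕ) : ℝ) * 1 :=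
      mul_le_mul_of_nonneg_left h3 h4
    push_cast at h5 h2
    linarith
  set y := ll N with hy
  set Q : Finset ℕ := (Ioc y N).filter (fun p => p.Prime ∧ p ∈ P) with hQ
  have hQp : ∀ q ∈ Q, q.Prime := fun q hq => (Finset.mem_filter.1 hq).2.1
  have hQK : ∑ q ∈ Q, (1 : ℝ) / q ≤ K := by
    refine le_trans (le_of_eq ?_) hmass
    unfold mass
    rw [hQ]
  have hgb := good_blocks I Q hQp K hQK
  rw [← hκ] at hgb
  set G := (range I).filter fun i => κ * 2 ^ i ≤
      ((((Ico (2 ^ i) (2 ^ (i + 1))).filter fun n => free Q n).card : ℕ) : ℝ) with hG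
  set G' := G.filter fun i => x0 ≤ i with hG'
  have hG'c : (G.card : ℝ) ≤ G'.card + x0 := by
    have h1 := Finset.card_filter_add_card_filter_not (s := G) (fun i => x0 ≤ i)
    rw [← hG'] at h1
    have h2 : (G.filter fun i => ¬ x0 ≤ i).card ≤ x0 := by
      have h3 : (G.filter fun i => ¬ x0 ≤ i) ⊆ range x0 := by
        intro i hi
        have := (Finset.mem_filter.1 hi).2
        exact Finset.mem_range.2 (by omega)
      have := Finset.card_le_card h3
      rwa [Finset.card_range] at this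
    have h3 : G.card ≤ G'.card + x0 := by omega
    exact_mod_cast h3
  have hpow : ((2 ^ (y + 1) : ℕ) : ℝ) ≤ G'.card := by
    have h0 : 0 ≤ Real.log X := Real.log_nonneg hX1
    have h1 : (y : ℝ) ≤ Real.log X := Nat.floor_le h0
    have h2 : ((2 ^ (y + 1) : ℕ) : ℝ) ≤ 2 * X ^ (3 / 4 : ℝ) := by
      push_cast
      rw [pow_succ, mul_comm]
      refine mul_le_mul_of_nonneg_left ?_ (by norm_num)
      have h3 : (2 : ℝ) ^ y = Real.exp (y * Real.log 2) := by
        rw [mul_comm, Real.exp_mul, Real.exp_log (by norm_num)]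
        exact (Real.rpow_natCast 2 y).symm
      rw [h3, Real.rpow_def_of_pos (by linarith)]
      refine Real.exp_le_exp.2 ?_
      have h4 : Real.log 2 ≤ 3 / 4 := by
        have := Real.log_two_lt_d9
        linarith
      have h5 : 0 ≤ Real.log 2 := Real.log_nonneg (by norm_num)
      exact mul_le_mul h1 h4 h5 h0
    have h6 : κ * (X - 1) ≤ κ * I := mul_le_mul_of_nonneg_left hIX hκ0.le
    have h7 : 0 ≤ X ^ (3 / 4 : ℝ) := by positivity
    linarith
  -- patterns
  set A := (range (y + 1)).powerset with hA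
  have hcard : Fintype.card A ≤ Fintype.card G' := by
    rw [Fintype.card_coe, Fintype.card_coe, hA, Finset.card_powerset, Finset.card_range]
    exact_mod_cast hpow
  obtain ⟨e⟩ := Function.Embedding.nonempty_of_card_le hcard
  refine ⟨x0 + I + 1, by omega, fun i => (Q, if h : ∃ S : A, (e S : ℕ) = i then
    (h.choose : Finset ℕ) else ∅), fun ω => ?_⟩
  set S : Finset ℕ := (range (y + 1)).filter fun p => ω p = true with hS
  have hSA : S ∈ A := Finset.mem_powerset.2 (Finset.filter_subset _ _)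
  set i : ℕ := (e ⟨S, hSA⟩ : ℕ) with hi
  have hiG : i ∈ G' := (e ⟨S, hSA⟩).2
  obtain ⟨hiG1, hix0⟩ := Finset.mem_filter.1 hiG
  obtain ⟨hiI, hicount⟩ := Finset.mem_filter.1 hiG1
  rw [Finset.mem_range] at hiI
  refine ⟨i, hix0, by omega, ?_⟩
  have hex : ∃ S : A, (e S : ℕ) = i := ⟨⟨S, hSA⟩, rfl⟩
  have hch : hex.choose = ⟨S, hSA⟩ := e.injective (Subtype.ext hex.choose_spec)
  have hfi : (if h : ∃ S : A, (e S : ℕ) = i then (h.choose : Finset ℕ) else ∅) = S := by
    rw [dif_pos hex, hch]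
  unfold RR
  dsimp only
  rw [hfi]
  refine ⟨hicount, fun n hn hfr => ?_⟩
  rw [Finset.mem_Ico] at hn
  have hn0 : n ≠ 0 := by
    have : 0 < 2 ^ i := by positivity
    omega
  refine mult_pat P Q S ω y (2 ^ (i + 1)) n ?_ hn.2 hfr hn0 ?_
  · intro p hp hpP hyp hpX
    rw [hQ]
    refine Finset.mem_filter.2 ⟨Finset.mem_Ioc.2 ⟨hyp, ?_⟩, hp, hpP⟩
    have h1 : 2 ^ (i + 1) ≤ 2 ^ I := Nat.pow_le_pow_right (by norm_num) (by omega)
    omega
  · intro p hpy
    rw [hS, Finset.mem_filter, Finset.mem_range]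
    exact ⟨fun h => h.2, fun h => ⟨by omega, h⟩⟩

open Classical in
/-- **Below the threshold.** -/
theorem nec (P : Set ℕ) (hP : ¬ Tendsto (mass P ll) atTop atTop) :
    ∃ g : ℕ → ℝ, (∀ n, g n = 0 ∨ g n = 1 ∨ g n = -1) ∧ ∃ c : ℝ, 0 < c ∧ ∀ ω : ℕ → Bool,
      ∃ᶠ N : ℕ in atTop, c * N ≤ |∑ n ∈ Icc 1 N, g n * mult (sg P es ω) n| := by
  have hK : ∃ K : ℝ, ∀ N0 : ℕ, ∃ N, N0 ≤ N ∧ mass P ll N ≤ K := by
    rw [tendsto_atTop] at hP
    push Not at hP
    obtain ⟨K, hK⟩ := hP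
    refine ⟨K, fun N0 => ?_⟩
    obtain ⟨N, h1, h2⟩ := (frequently_atTop.1 hK) N0
    exact ⟨N, h1, h2.le⟩
  obtain ⟨K, hK⟩ := hK
  set κ := Real.exp (-(2 * K)) / 4 with hκ
  have hκ0 : 0 < κ := by
    have := Real.exp_pos (-(2 * K))
    positivity
  obtain ⟨f, hf⟩ := glue (RR P κ) (local_step P K hK)
  set g : ℕ → ℝ := fun n => if free (f (Nat.log 2 n)).1 n then
    mult (sg P es (pat (f (Nat.log 2 n)).2)) n else 0 with hg
  have habs : ∀ ω n, mult (sg P es ω) n = 1 ∨ mult (sg P es ω) n = -1 := fun ω n =>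
    (abs_eq zero_le_one).1 (abs_mult _ (abs_sg signs P ω) n)
  refine ⟨g, fun n => ?_, κ / 4, by positivity, fun ω => ?_⟩
  · simp only [hg]
    split_ifs
    · exact Or.inr (habs _ _)
    · exact Or.inl rfl
  rw [frequently_atTop]
  intro N0
  obtain ⟨i, hi1, hi2, hi3⟩ := hf ω (N0 + 1)
  set D : ℕ → ℝ := fun N => ∑ n ∈ Icc 1 N, g n * mult (sg P es ω) n with hD
  have hpow : N0 + 1 < 2 ^ i := lt_of_le_of_lt hi1 Nat.lt_two_pow_self
  have hblock : κ * 2 ^ i ≤ D (2 ^ (i + 1) - 1) - D (2 ^ i - 1) := by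
    have h1 : D (2 ^ (i + 1) - 1) - D (2 ^ i - 1) =
        ∑ n ∈ Ico (2 ^ i) (2 ^ (i + 1)), g n * mult (sg P es ω) n := by
      simp only [hD]
      have h2 : Icc 1 (2 ^ (i + 1) - 1) = Icc 1 (2 ^ i - 1) ∪ Ico (2 ^ i) (2 ^ (i + 1)) := by
        ext n
        have h3 : 2 ^ i ≤ 2 ^ (i + 1) := Nat.pow_le_pow_right (by norm_num) (by omega)
        simp only [Finset.mem_Icc, Finset.mem_union, Finset.mem_Ico]
        omega
      have h3 : Disjoint (Icc 1 (2 ^ i - 1)) (Ico (2 ^ i) (2 ^ (i + 1))) := by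
        rw [Finset.disjoint_left]
        intro n hn hn2
        rw [Finset.mem_Icc] at hn
        rw [Finset.mem_Ico] at hn2
        omega
      rw [h2, Finset.sum_union h3, add_sub_cancel_left]
    rw [h1]
    refine hi2.trans (le_of_eq ?_)
    rw [Finset.card_filter]
    push_cast
    refine Finset.sum_congr rfl fun n hn => ?_
    have hlogn : Nat.log 2 n = i := by
      rw [Finset.mem_Ico] at hn
      exact (Nat.log_eq_iff (Or.inr ⟨by norm_num, by
        have : 0 < 2 ^ i := by positivity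
        omega⟩)).2 hn
    simp only [hg]
    rw [hlogn]
    by_cases hfr : free (f i).1 n
    · rw [if_pos hfr, if_pos hfr, ← hi3 n hn hfr]
      rcases habs ω n with h | h <;> rw [h] <;> norm_num
    · rw [if_neg hfr, if_neg hfr, zero_mul]
  have h2i : ((2 ^ (i + 1) - 1 : ℕ) : ℝ) ≤ 2 * 2 ^ i := by
    have : 2 ^ (i + 1) - 1 ≤ 2 * 2 ^ i := by
      rw [pow_succ]
      omega
    exact_mod_cast this
  have h2i' : ((2 ^ i - 1 : ℕ) : ℝ) ≤ 2 ^ i := by
    have : 2 ^ i - 1 ≤ 2 ^ i := by omega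
    exact_mod_cast this
  have h0 : (0 : ℝ) < 2 ^ i := by positivity
  by_cases hcase : κ / 4 * ((2 ^ i - 1 : ℕ) : ℝ) ≤ |D (2 ^ i - 1)|
  · exact ⟨2 ^ i - 1, by omega, hcase⟩
  · push Not at hcase
    refine ⟨2 ^ (i + 1) - 1, ?_, ?_⟩
    · have : 2 ^ i ≤ 2 ^ (i + 1) := Nat.pow_le_pow_right (by norm_num) (by omega)
      omega
    · have h3 : κ * 2 ^ i ≤ |D (2 ^ (i + 1) - 1)| + |D (2 ^ i - 1)| := by
        have h4 := le_abs_self (D (2 ^ (i + 1) - 1))
        have h5 := neg_abs_le (D (2 ^ i - 1))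
        linarith
      have h4 : κ / 4 * ((2 ^ i - 1 : ℕ) : ℝ) ≤ κ / 4 * 2 ^ i :=
        mul_le_mul_of_nonneg_left h2i' (by positivity)
      have h5 : κ / 4 * ((2 ^ (i + 1) - 1 : ℕ) : ℝ) ≤ κ / 4 * (2 * 2 ^ i) :=
        mul_le_mul_of_nonneg_left h2i (by positivity)
      nlinarith

end Pool.Agent.Q163.RX
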